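import Mathlib

namespace Pool.Agent.Results.MP_95765a_co.All

open Finset

theorem result (V : Type) [Fintype V] (A : V → V → Prop) (hA : ∀ v, ¬ A v v) :
    ∃ (m : ℕ) (f : V → Finset (Fin (m + 1))), Function.Injective f ∧
      (∀ u v u' v', A u v → A u' v' → f u \ f v = f u' \ f v' → u = u' ∧ v = v') ∧
      (∀ u v, A u v → (f u \ f v).card < (f v).card) ∧
      ∀ u v, A u v → (f u \ f v).card = min (f u).card ((f v).card - 1) := by
  classical
  obtain ⟨m, ι, hι⟩ : ∃ (m : ℕ) (ι : Sym2 V → Fin (m + 1)), Function.Injective ι :=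
    ⟨Fintype.card (Sym2 V), fun e => (Fintype.equivFin _ e).castSucc,
      (Fin.castSucc_injective _).comp (Fintype.equivFin _).injective⟩
  let f : V → Finset (Fin (m + 1)) := fun u => univ.image fun w => ι s(u, w)
  have hmem : ∀ u a b, ι s(a, b) ∈ f u ↔ a = u ∨ b = u := by
    intro u a b
    simp only [f, mem_image, mem_univ, true_and, hι.eq_iff, Sym2.eq_iff]
    constructor
    · rintro ⟨w, h | h⟩
      · exact Or.inl h.1.symm
      · exact Or.inr h.1.symm
    · rintro (rfl | rfl)
      · exact ⟨b, Or.inl ⟨rfl, rfl⟩⟩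
      · exact ⟨a, Or.inr ⟨rfl, rfl⟩⟩
  have hcard : ∀ u, (f u).card = Fintype.card V := by
    intro u
    rw [card_image_of_injective _ (fun a b h => Sym2.congr_right.mp (hι h)), card_univ]
  have hd : ∀ u v, u ≠ v → f u \ f v = (f u).erase (ι s(u, v)) := by
    intro u v huv
    ext x
    simp only [mem_sdiff, mem_erase]
    constructor
    · rintro ⟨h1, h2⟩
      exact ⟨fun h => h2 (by rw [h, hmem]; exact Or.inr rfl), h1⟩
    · rintro ⟨h1, h2⟩
      refine ⟨h2, fun h3 => ?_⟩
      obtain ⟨w, -, rfl⟩ := mem_image.mp h2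
      rcases (hmem _ _ _).mp h3 with h | h
      · exact huv h
      · exact h1 (by rw [h])
  have hc : ∀ u v, A u v → (f u \ f v).card = Fintype.card V - 1 := by
    intro u v h
    rw [hd u v (fun e => hA v (e ▸ h)), card_erase_of_mem ((hmem _ _ _).mpr (Or.inl rfl)), hcard]
  refine ⟨m, f, ?_, ?_, ?_, ?_⟩
  · intro u v h
    have := (hmem u u u).mpr (Or.inl rfl)
    rw [h, hmem] at this
    tauto
  · intro u v u' v' h h' e
    have huv : u ≠ v := fun e => hA v (e ▸ h)
    have h1 : ι s(u, u) ∈ f u \ f v := by simp [hmem, huv]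
    rw [e, mem_sdiff, hmem] at h1
    have h2 : u = u' := by tauto
    subst h2
    refine ⟨rfl, ?_⟩
    by_contra hv
    have h3 : ι s(u, v') ∈ f u \ f v := by simp [hmem, huv, Ne.symm hv]
    rw [e] at h3
    simp [hmem] at h3
  · intro u v h
    have : 0 < Fintype.card V := Fintype.card_pos_iff.mpr ⟨u⟩
    rw [hc u v h, hcard]
    omega
  · intro u v h
    rw [hc u v h, hcard, hcard]
    omega

end Pool.Agent.Results.MP_95765a_co.All
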